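import Pool.Agent.Q314.PS.Asm
import Pool.Agent.Q314.PS.TaskInd
import Pool.Agent.Q314.PS.TaskSel
import Pool.Agent.Q314.PS.TaskCount
import Pool.Agent.Q314.PS.TaskPlant
import Pool.Agent.Q314.PS.TaskPath
import Pool.Agent.Q314.PS.TaskSuper
import Pool.Agent.Q314.PS.TaskT0
import Pool.Agent.Q314.PS.TaskChern
import Pool.Agent.Q314.PS.TaskRet
import Pool.Agent.Q314.PS.TaskConc
import Pool.Agent.Q314.PS.TaskLower
import Pool.Agent.Q314.PS.TaskMean
import Pool.Agent.Q314.PS.TaskJensen
import Pool.Agent.Q314.PS.TaskAlg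

set_option autoImplicit false

/-!
# Strict Jensen gap for the planted random subsequence model

For every `α ∈ (0,1)` the quenched planted free energy is strictly smaller than the annealed one.

Proof. For `ε > 0` Jensen's inequality gives
`E log Z ≤ log E [Z exp(ε S(σ*))] - ε E S(σ*)`, where `S(σ)` is the number of neighbouring places
picked by `σ`. Averaging over `X` first, `E [Z exp(ε S(σ*))]` is a sum over pairs `σ, σ'` with
weights `2^(-#{j : σ j ≠ σ' j})`, a nearest neighbour path sum for the difference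
`D = #(picks of σ) - #(picks of σ')`. With the fugacity `y = 2u²/(1-u)` its growth rate is
`λ = (1+u)/(1-u)` with the eigenfunction `((1-u)/2)^(|D|/2)`, `α = 2u/((2-u)(1+u))`, and the
density of neighbouring picks is `ρ = u²(u²-u+2)/((2-u)(1+u)) < α²`, whereas under the planted law
it is `α²`. An explicit super-solution for small `ε` gives the upper bound.
-/

namespace Pool.Agent.Results.MP_667a4a_pr.StrictJensenGap

open Filter Topology

/-- `Z_{X,Y}`: number of strictly increasing maps `σ : [M] → [N]` with `X_σ = Y` -/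
noncomputable def occ {M N : ℕ} (X : Fin N → Bool) (Y : Fin M → Bool) : ℕ :=
  Nat.card {σ : Fin M ↪o Fin N // ∀ j, X (σ j) = Y j}

/-- expectation of `F(X, Y)` under the planted law: `X` uniform on `{0,1}^N`, `σ*` uniform on the
strictly increasing maps `[M] → [N]`, `Y = X_σ*` -/
noncomputable def planted (N M : ℕ) (F : (Fin N → Bool) → (Fin M → Bool) → ℝ) : ℝ :=
  (∑ X : Fin N → Bool, ∑ σ : Fin M ↪o Fin N, F X (fun j => X (σ j))) /
    (2 ^ N * (Fintype.card (Fin M ↪o Fin N) : ℝ))

theorem result : ∀ α : ℝ, 0 < α → α < 1 →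
    (∃ c > 0, ∃ δ > 0, ∃ N0 : ℕ, ∀ N ≥ N0, ∀ M : ℕ, |(M : ℝ) - α * N| ≤ δ * N →
      planted N M (fun X Y => Real.log (occ X Y)) ≤
        Real.log (planted N M (fun X Y => (occ X Y : ℝ))) - c * N) ∧
    (∀ (N M : ℕ → ℕ) (f g : ℝ), Tendsto N atTop atTop →
      Tendsto (fun k => (M k : ℝ) / N k) atTop (𝓝 α) →
      Tendsto (fun k => planted (N k) (M k) (fun X Y => Real.log (occ X Y)) / N k) atTop (𝓝 f) →
      Tendsto (fun k => Real.log (planted (N k) (M k) (fun X Y => (occ X Y : ℝ))) / N k) atTop
        (𝓝 g) → f < g) := by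
  open Pool.Agent.Q314.PS in
  intro α h0 h1
  have key := main taskInd (taskPlant taskInd taskSel taskCount) taskPath taskSuper
    (taskLower (taskChern (taskT0 taskPath)) taskRet taskConc) taskMean taskJensen taskIVT taskRho
    α h0 h1
  refine ⟨key, ?_⟩
  intro N M f g hN hM hf hg
  obtain ⟨c, hc, δ, hδ, N0, h⟩ := key
  have hev : ∀ᶠ k in atTop, planted (N k) (M k) (fun X Y => Real.log (occ X Y)) / N k ≤
      Real.log (planted (N k) (M k) (fun X Y => (occ X Y : ℝ))) / N k - c := by
    have e1 := hN.eventually_ge_atTop N0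
    have e2 := hN.eventually_gt_atTop 0
    have e3 := hM.eventually (Metric.closedBall_mem_nhds α hδ)
    filter_upwards [e1, e2, e3] with k h1 h2 h3
    have hk : (0 : ℝ) < N k := by exact_mod_cast h2
    have h3' : |(M k : ℝ) / N k - α| ≤ δ := by
      have : dist ((M k : ℝ) / N k) α ≤ δ := h3
      rwa [Real.dist_eq] at this
    have h4 : |(M k : ℝ) - α * N k| ≤ δ * N k := by
      have e : (M k : ℝ) - α * N k = ((M k : ℝ) / N k - α) * N k := by field_simp
      rw [e, abs_mul, abs_of_pos hk]
      gcongr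
    have h5 := h (N k) h1 (M k) h4
    have h6 : planted (N k) (M k) (fun X Y => Real.log (occ X Y)) ≤
        Real.log (planted (N k) (M k) (fun X Y => (occ X Y : ℝ))) - c * N k := h5
    rw [div_le_iff₀ hk, sub_mul, div_mul_cancel₀ _ hk.ne']
    exact h6
  have := le_of_tendsto_of_tendsto hf (hg.sub_const c) hev
  linarith

end Pool.Agent.Results.MP_667a4a_pr.StrictJensenGap
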